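import Pool.Agent.Helper12.SZ.MainA
import Pool.Agent.Helper15.SZ.DHJ

/-!
Project SZ, module SZ-14: Szemeredi's theorem.
-/

namespace Pool.Agent.Helper52.SZ

/-- Szemeredi's theorem. -/
theorem szemeredi (k : ℕ) (δ : ℝ) (hδ : 0 < δ) :
    ∃ N0 : ℕ, ∀ N : ℕ, N0 ≤ N → ∀ A : Finset ℕ, A ⊆ Finset.range N → δ * N ≤ (A.card : ℝ) →
      ∃ a d : ℕ, 0 < d ∧ ∀ i < k, a + i * d ∈ A := by
  rcases Nat.eq_zero_or_pos k with hk | hk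
  · subst hk
    exact ⟨0, fun _ _ _ _ _ => ⟨0, 1, Nat.one_pos, fun i hi => absurd hi (Nat.not_lt_zero i)⟩⟩
  · exact szemeredi_of_dhj hk (dhj (Fin k)) δ hδ

end Pool.Agent.Helper52.SZ
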