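import Pool.Agent.Helper52.SZ.Defs

/-!
Project SZ, module SZ-14: from the density Hales-Jewett theorem to Szemeredi's theorem.
-/

namespace Pool.Agent.Helper52.SZ

open Combinatorics

/-- the digit sum along a combinatorial line is an arithmetic progression -/
theorem main_line {k n : ℕ} (l : Line (Fin k) (Fin n)) :
    ∃ c m : ℕ, 0 < m ∧ ∀ x : Fin k, ∑ j, ((l x j : Fin k) : ℕ) = c + (x : ℕ) * m := by
  refine ⟨∑ j, (l.idxFun j).elim 0 (fun y => (y : ℕ)),
    ∑ j, (if l.idxFun j = none then 1 else 0), ?_, ?_⟩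
  · obtain ⟨p, hp⟩ := l.proper
    refine Finset.sum_pos' (fun _ _ => Nat.zero_le _) ⟨p, Finset.mem_univ p, ?_⟩
    rw [if_pos hp]
    exact Nat.one_pos
  · intro x
    rw [Finset.mul_sum, ← Finset.sum_add_distrib]
    refine Finset.sum_congr rfl fun j _ => ?_
    rw [Line.coe_apply]
    cases l.idxFun j with
    | none => simp
    | some y => simp

/-- the number of a < N with a + t ∈ A is at least |A| - t -/
theorem main_count {N : ℕ} (A : Finset ℕ) (hA : A ⊆ Finset.range N) (t : ℕ) :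
    (A.card : ℝ) - t ≤ ∑ a : Fin N, {b : ℕ | b ∈ A}.indicator (fun _ => (1 : ℝ)) ((a : ℕ) + t) := by
  classical
  have h1 : ∑ a : Fin N, {b : ℕ | b ∈ A}.indicator (fun _ => (1 : ℝ)) ((a : ℕ) + t)
      = (((Finset.range N).filter (fun a => a + t ∈ A)).card : ℝ) := by
    rw [Fin.sum_univ_eq_sum_range
      (fun a => {b : ℕ | b ∈ A}.indicator (fun _ => (1 : ℝ)) (a + t)) N]
    rw [Finset.card_filter]
    push_cast
    refine Finset.sum_congr rfl fun a _ => ?_
    rw [Set.indicator_apply]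
    rfl
  rw [h1]
  have h2 : A ⊆ Finset.range t ∪
      ((Finset.range N).filter (fun a => a + t ∈ A)).image (fun a => a + t) := by
    intro b hb
    rw [Finset.mem_union]
    by_cases hbt : b < t
    · exact Or.inl (Finset.mem_range.mpr hbt)
    · refine Or.inr (Finset.mem_image.mpr ⟨b - t, Finset.mem_filter.mpr ⟨?_, ?_⟩, by omega⟩)
      · have := Finset.mem_range.mp (hA hb)
        exact Finset.mem_range.mpr (by omega)
      · rwa [Nat.sub_add_cancel (by omega)]
  have h3 := (Finset.card_le_card h2).trans (Finset.card_union_le _ _)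
  have h4 := Finset.card_image_le
    (s := (Finset.range N).filter (fun a => a + t ∈ A)) (f := fun a => a + t)
  rw [Finset.card_range] at h3
  have h5 : A.card ≤ t + ((Finset.range N).filter (fun a => a + t ∈ A)).card := by omega
  have h6 : (A.card : ℝ) ≤ t + (((Finset.range N).filter (fun a => a + t ∈ A)).card : ℝ) := by
    exact_mod_cast h5
  linarith

theorem szemeredi_of_dhj {k : ℕ} (hk : 0 < k) (h : DHJ (Fin k)) (δ : ℝ) (hδ : 0 < δ) :
    ∃ N0 : ℕ, ∀ N : ℕ, N0 ≤ N → ∀ A : Finset ℕ, A ⊆ Finset.range N → δ * N ≤ (A.card : ℝ) →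
      ∃ a d : ℕ, 0 < d ∧ ∀ i < k, a + i * d ∈ A := by
  obtain ⟨n, hn⟩ := h (δ / 2) (by linarith)
  refine ⟨⌈2 * (n * k : ℝ) / δ⌉₊ + 1, fun N hN A hA hcard => ?_⟩
  have : NeZero k := ⟨hk.ne'⟩
  have hN1 : 2 * (n * k : ℝ) / δ ≤ N := by
    refine (Nat.le_ceil _).trans ?_
    exact_mod_cast (Nat.le_succ _).trans hN
  have hN0 : 0 < N := by omega
  have : NeZero N := ⟨hN0.ne'⟩
  have hNr : (0 : ℝ) < N := by exact_mod_cast hN0
  have hN2 : 2 * (n * k : ℝ) ≤ δ * N := by
    rw [div_le_iff₀ hδ] at hN1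
    linarith
  -- the digit sum
  let s : (Fin n → Fin k) → ℕ := fun x => ∑ j, ((x j : Fin k) : ℕ)
  have hs : ∀ x, s x ≤ n * k := by
    intro x
    have h1 : s x ≤ ∑ _j : Fin n, k := Finset.sum_le_sum fun j _ => (x j).isLt.le
    simpa using h1
  let F : Fin N → (Fin n → Fin k) → ℝ := fun a x =>
    {b : ℕ | b ∈ A}.indicator (fun _ => (1 : ℝ)) ((a : ℕ) + s x)
  have hF : ∀ x, δ / 2 ≤ av (fun a => F a x) := by
    intro x
    rw [av_eq_sum, Fintype.card_fin, le_div_iff₀ hNr]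
    have h1 := main_count A hA (s x)
    have h2 : (s x : ℝ) ≤ n * k := by exact_mod_cast hs x
    show δ / 2 * N ≤ ∑ a : Fin N,
      {b : ℕ | b ∈ A}.indicator (fun _ => (1 : ℝ)) ((a : ℕ) + s x)
    linarith
  have hG : δ / 2 ≤ av (fun a => av (fun x => F a x)) := by
    rw [av_comm]
    exact le_av_of_le hF
  obtain ⟨a, ha⟩ := exists_le_av (fun a => av (fun x => F a x))
  have hd : δ / 2 ≤ dn {x : Fin n → Fin k | (a : ℕ) + s x ∈ A} := hG.trans ha
  obtain ⟨l, hl⟩ := hn (Fin n) (by simp) _ hd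
  obtain ⟨c, m, hm, hcm⟩ := main_line l
  refine ⟨(a : ℕ) + c, m, hm, fun i hi => ?_⟩
  have h1 : (a : ℕ) + s (l ⟨i, hi⟩) ∈ A := hl ⟨i, hi⟩
  have h2 : s (l ⟨i, hi⟩) = c + i * m := hcm ⟨i, hi⟩
  rw [h2, ← add_assoc] at h1
  exact h1

end Pool.Agent.Helper52.SZ
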